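import Pool.Agent.Helper31.CT.Sing

set_option autoImplicit false

/-! FS-5: a Hamilton system of the closed up piece passes the checks of the enumeration -/

namespace Pool.Agent.Helper17.CT

private theorem SOH_tb (a i : ℕ) : tb a i = a.testBit i := by
  have h : tb a i = Nat.beq ((a >>> i) % 2) 1 := rfl
  rw [h, Nat.testBit_eq_decide_div_mod_eq, Nat.shiftRight_eq_div_pow]
  by_cases h1 : a / 2 ^ i % 2 = 1
  · rw [h1]; simp
  · have h2 : a / 2 ^ i % 2 = 0 := by omega
    rw [h2]; rfl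

/-- the number of ports is at most 15 -/
private theorem SOH_k {F : Code} (hF : CodeOK F) : F.k ≤ 15 := by
  by_contra h
  have h1 := (hF.q 15 (by omega)).2
  have h2 : d4 F.P (d6 F.Q 15) < 16 := Nat.mod_lt _ (by norm_num)
  omega

theorem sing_of_hamF (F : Code) (hF : CodeOK F) (t : Fin (3 * F.n) → Bool) (b : Fin F.k → Fin F.k)
    (hbi : ∀ j, b (b j) = j) (hH : HamF (piece F hF) t b) (m cov : ℕ) (hm : TrSpec F hF t m cov)
    (hne : ∃ j, b j ≠ j) (B U : ℕ) (hB : CodeB b B) (hU : CodeU b U) :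
    cov = 2 ^ F.n - 1 ∧ sing F.k m B U = true := by
  classical
  -- closure of the set of darts reached from a set of ports
  have key : ∀ A : Fin F.k → Prop, (∀ j, A j → A (b j)) →
      (∀ i j : Fin F.k, t ((piece F hF).q i) = true → A i → (j : ℕ) = d4 m i → A j) →
      (∃ j, b j ≠ j ∧ A j) → ∀ y, t y = true →
        ∃ j, t ((piece F hF).q j) = true ∧ A j ∧ Cn (piece F hF) t ((piece F hF).q j) y := by
    intro A hAb hAm hA y hy
    obtain ⟨j0, hj0, hA0⟩ := hA
    have ht0 : t ((piece F hF).q j0) = true := (hH.use j0).2 hj0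
    have hreach := hH.conn _ y ht0 hy
    induction hreach with
    | refl => exact ⟨j0, ht0, hA0, Relation.ReflTransGen.refl⟩
    | tail hxy hstep ih =>
      rename_i u v
      obtain ⟨hu, hv, hs⟩ := hstep
      obtain ⟨j, hj, hAj, hc⟩ := ih hu
      rcases hs with hs | hs | ⟨hnp, hs⟩ | ⟨i, hi, hs⟩
      · exact ⟨j, hj, hAj, hc.tail ⟨hu, hv, Or.inl hs⟩⟩
      · exact ⟨j, hj, hAj, hc.tail ⟨hu, hv, Or.inr (Or.inl hs)⟩⟩
      · exact ⟨j, hj, hAj, hc.tail ⟨hu, hv, Or.inr (Or.inr (Or.inl ⟨hnp, hs⟩))⟩⟩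
      · have hAi : A i := by
          rw [hi] at hc
          rcases hm.uni j i hj hc with h1 | h1
          · rwa [Fin.ext h1]
          · exact hAm j i hj hAj h1
        refine ⟨b i, by rw [← hs]; exact hv, hAb i hAi, ?_⟩
        rw [hs]
        exact Relation.ReflTransGen.refl
  constructor
  · -- the cover is full
    have hfull : ∀ v < F.n, cov.testBit v = true := by
      intro v hv
      have h0 : 3 * v < 3 * F.n := by omega
      have hone := hH.one ⟨3 * v, h0⟩
      obtain ⟨x, hx, hxv⟩ : ∃ x : Fin (3 * F.n), t x = true ∧ (x : ℕ) / 3 = v := by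
        have hs1 : (((piece F hF).s ⟨3 * v, h0⟩ : Fin (3 * F.n)) : ℕ) / 3 = v := by
          have h1 : (((piece F hF).s ⟨3 * v, h0⟩ : Fin (3 * F.n)) : ℕ) =
            3 * (3 * v / 3) + (3 * v % 3 + 1) % 3 := rfl
          rw [h1]
          omega
        rcases hone with h1 | h1 | h1
        · exact ⟨_, h1.2.1, hs1⟩
        · exact ⟨⟨3 * v, h0⟩, h1.1, by simp⟩
        · exact ⟨_, h1.2.1, hs1⟩
      obtain ⟨j, hj, -, hc⟩ := key (fun _ => True) (fun _ _ => trivial) (fun _ _ _ _ _ => trivial)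
        (by obtain ⟨j, hj⟩ := hne; exact ⟨j, hj, trivial⟩) x hx
      have h2 := (hm.cv x hx).2 ⟨j, hj, hc⟩
      rw [hxv, SOH_tb] at h2
      exact h2
    apply Nat.eq_of_testBit_eq
    intro i
    rw [Nat.testBit_two_pow_sub_one]
    by_cases hi : i < F.n
    · rw [hfull i hi]; simp [hi]
    · have h1 : cov < 2 ^ i := lt_of_lt_of_le hm.bound (Nat.pow_le_pow_right (by norm_num) (by omega))
      rw [Nat.testBit_lt_two_pow h1]; simp [hi]
  · by_contra hcon
    have hcon' : sing F.k m B U = false := by simpa using hcon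
    have hUne : U ≠ 0 := by
      intro h0
      obtain ⟨j, hj⟩ := hne
      have h1 := (hU.2 j).2 hj
      rw [h0, SOH_tb] at h1
      simp at h1
    have hmU : CodeU (fun j : Fin F.k => (⟨d4 m j, hm.lt j⟩ : Fin F.k)) U := by
      refine ⟨hU.1, fun j => ?_⟩
      rw [hU.2 j, ← hH.use j, hm.use j]
      constructor
      · intro h h1; exact h (congrArg Fin.val h1)
      · intro h h1; exact h (Fin.ext h1)
    obtain ⟨A, ⟨j1, hj1, hA1⟩, ⟨j2, hj2, hA2⟩, hA⟩ := sing_neg (SOH_k hF)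
      (fun j : Fin F.k => (⟨d4 m j, hm.lt j⟩ : Fin F.k)) b m B U
      (fun j => Fin.ext (hm.inv j)) hbi (fun j => rfl) hB hmU hU hUne hcon'
    have hb1 : b j1 ≠ j1 := (hU.2 j1).1 ((hmU.2 j1).2 hj1)
    have hb2 : b j2 ≠ j2 := (hU.2 j2).1 ((hmU.2 j2).2 hj2)
    obtain ⟨j, hj, hAj, hc⟩ := key (fun j => A j = true) (fun j hj => by rw [(hA j).2]; exact hj)
      (fun i j _ hi hij => by
        have h1 := (hA i).1
        have h2 : (⟨d4 m i, hm.lt i⟩ : Fin F.k) = j := Fin.ext hij.symm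
        rw [h2] at h1
        rw [h1]; exact hi)
      ⟨j1, hb1, hA1⟩ ((piece F hF).q j2) ((hH.use j2).2 hb2)
    rcases hm.uni j j2 hj hc with h1 | h1
    · rw [← Fin.ext h1] at hAj
      simp [hAj] at hA2
    · have h2 : (⟨d4 m j, hm.lt j⟩ : Fin F.k) = j2 := Fin.ext h1.symm
      have h3 := (hA j).1
      rw [h2, hAj, hA2] at h3
      simp at h3

end Pool.Agent.Helper17.CT
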